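import Pool.Agent.Helper90.MZ.StmtsC

/-!
# CTS: the step of the coding theorem
-/

set_option autoImplicit false

namespace Pool.Agent.Helper90.MZ

open Pool.Agent.Helper90.TS

theorem cts_fin {V : Type} (W : ℕ → Set V) (hW : ∀ j, W j ⊆ W (j + 1)) (C : Set V)
    (hC : C.Finite) (h : C ⊆ ⋃ j, W j) : ∃ j, C ⊆ W j := by
  have hm : Monotone W := monotone_nat_of_le_succ hW
  revert h
  refine Set.Finite.induction_on (motive := fun C _ => C ⊆ ⋃ j, W j → ∃ j, C ⊆ W j) C hC ?_ ?_
  · intro _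
    exact ⟨0, Set.empty_subset _⟩
  · intro a s _ _ ih h
    obtain ⟨j, hj⟩ := ih ((Set.subset_insert a s).trans h)
    obtain ⟨k, hk⟩ := Set.mem_iUnion.1 (h (Set.mem_insert a s))
    refine ⟨max j k, ?_⟩
    intro x hx
    rcases hx with rfl | hx
    · exact hm (le_max_right j k) hk
    · exact hm (le_max_left j k) (hj hx)

theorem cts_rl {V G : Type} [Group G] [MulAction G V] {X : Ctx V G} {p p' : Ty V}
    (hA : p'.A = p.A) (hz : Eqv G p.A p.z p'.z) (B : Set V) (y : Fin 1 → V) :
    Rl X p' B y ↔ Rl X p B y := by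
  unfold Rl
  rw [hA]
  refine and_congr_left fun _ => ⟨fun h => eqv_trans hz h, fun h => eqv_trans (eqv_symm hz) h⟩

theorem st_CTS (hCTR : ST_CTR) (hSRL : ST_SRL) (hUSEV : ST_USEV) (hPRIM : ST_PRIM)
    (hMDLB : ST_MDLB) (hRLB : ST_RLB) : ST_CTS := by
  classical
  intro V G _ _ X κ _ q h N hN hq
  by_cases hex : ∃ p : Ty V, SR X p ∧ p.A.Finite ∧ p.A ⊆ N
  swap
  · refine ⟨N, hN, le_rfl, fun i => (hq i).2.2.2, ?_⟩
    intro r hr hrf hrN _
    exact absurd ⟨r, hr, hrf, hrN⟩ hex
  obtain ⟨r, hr, hrall⟩ := hCTR V G X N hN.1 hex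
  have hrl1 : ∀ (j : ℕ) (B : Set V), B.Countable → ∃ y, Rl X (r j) B y := fun j B hB =>
    (hRLB V G X (r j) (hr j).1 B hB).1
  -- the choice function
  obtain ⟨c, hc⟩ : ∃ c : ℕ → Set V → (Fin 1 → V), ∀ j B, B.Countable → Rl X (r j) B (c j B) := by
    refine ⟨fun j B => if hB : B.Countable then (hrl1 j B hB).choose else (r j).z, ?_⟩
    intro j B hB
    simp only
    rw [dif_pos hB]
    exact (hrl1 j B hB).choose_spec
  obtain ⟨P, hP⟩ : ∃ P : ℕ → Prop, P = fun j => ∀ i, ¬ NO X (r j) (q i) := ⟨_, rfl⟩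
  obtain ⟨W, hW0, hWs⟩ : ∃ W : ℕ → Set V, W 0 = N ∧
      ∀ j, W (j + 1) = if P j then W j ∪ Set.range (c j (W j)) else W j :=
    ⟨fun j => Nat.rec N (fun j B => if P j then B ∪ Set.range (c j B) else B) j, rfl,
      fun _ => rfl⟩
  have hWp : ∀ j, P j → W (j + 1) = W j ∪ Set.range (c j (W j)) := fun j hj => by
    rw [hWs, if_pos hj]
  have hWn : ∀ j, ¬ P j → W (j + 1) = W j := fun j hj => by rw [hWs, if_neg hj]
  have hWc : ∀ j, (W j).Countable := by
    intro j
    induction j with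
    | zero => rw [hW0]; exact hN.1
    | succ j ih =>
      by_cases hj : P j
      · rw [hWp j hj]; exact ih.union (Set.countable_range _)
      · rw [hWn j hj]; exact ih
  have hWm : ∀ j, W j ⊆ W (j + 1) := by
    intro j
    by_cases hj : P j
    · rw [hWp j hj]; exact Set.subset_union_left
    · rw [hWn j hj]
  have hNW : ∀ j, N ⊆ W j := by
    intro j
    have := monotone_nat_of_le_succ hWm (Nat.zero_le j)
    rwa [hW0] at this
  obtain ⟨Z, hZ⟩ : ∃ Z : Set V, Z = ⋃ j, W j := ⟨_, rfl⟩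
  have hZc : Z.Countable := by rw [hZ]; exact Set.countable_iUnion hWc
  have hWZ : ∀ j, W j ⊆ Z := fun j => by rw [hZ]; exact Set.subset_iUnion W j
  have hNZ : N ⊆ Z := (hNW 0).trans (hWZ 0)
  -- the model
  obtain ⟨M, hM, hZM, _⟩ := (hMDLB V G X).2.1 ∅ ∅ Z (Set.empty_subset _) hZc Set.countable_empty
    si_empty_right
  obtain ⟨N', hN'M, hN'⟩ := hPRIM V G X Z M hM hZM
  obtain ⟨hN'm, hZN', hat⟩ := hN'
  refine ⟨N', hN'm, hNZ.trans hZN', ?_, ?_⟩
  · -- omission
    intro i y hy hRl
    obtain ⟨hSR, hqA, hhN, hOm⟩ := hq i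
    have hqN : (q i).A ⊆ N := hqA.trans hhN
    have hRN : Rl X (q i) N y := hSRL V G X (q i) (h i) N hSR hN hqN hhN hOm y hRl
    have hyc : (Set.range y).Countable := Set.countable_range y
    have hind : ∀ j, Rl X (q i) (W j) y ∧ SI X N (Set.range y) (W j) := by
      intro j
      induction j with
      | zero => rw [hW0]; exact ⟨hRN, si_self_right le_rfl⟩
      | succ j ih =>
        by_cases hj : P j
        · rw [hWp j hj]
          have hjR := hc j (W j) (hWc j)
          have hcc : (Set.range (c j (W j))).Countable := Set.countable_range _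
          have h1 : SI X (W j) (Set.range (c j (W j))) (Set.range y) := by
            by_contra hcon
            rw [hP] at hj
            exact hj i ⟨W j, c j (W j), y, hWc j, (hr j).2.2.trans (hNW j), hqN.trans (hNW j),
              hjR, ih.1, hcon⟩
          have h2 : SI X (W j) (Set.range y) (Set.range (c j (W j))) :=
            si_symm (hWc j) hcc hyc h1
          have e1 : (q i).A ∪ W j = W j :=
            Set.union_eq_self_of_subset_left (hqN.trans (hNW j))
          have e2 : N ∪ W j = W j := Set.union_eq_self_of_subset_left (hNW j)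
          refine ⟨(hRLB V G X (q i) hSR (W j) (hWc j)).2.2.2.1 y _ hcc ih.1 (by rw [e1]; exact h2),
            si_trans hN.1 hyc (hWc j) hcc ih.2 (by rw [e2]; exact h2)⟩
        · rw [hWn j hj]; exact ih
    have hsi : SI X N (Set.range y) Z := by
      refine si_finite hN.1 hyc hZc ?_
      intro B0 C0 hB0 hC0 _ hC0f
      rw [hZ] at hC0
      obtain ⟨j, hj⟩ := cts_fin W hWm C0 hC0f hC0
      exact si_left hB0 (si_right hN.1 hyc (hWc j) hj (hind j).2)
    have hisl : Isl X (N ∪ Z) y := by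
      rw [Set.union_eq_self_of_subset_left hNZ]
      exact hat 1 y hy
    have hyN := hUSEV V G X N Z hN hZc (Fin 1) y hisl hsi
    exact hOm y hyN hRl
  · -- realization
    intro p hp hpf hpN hpq
    obtain ⟨n, hnA, hnD, hnz⟩ := hrall p hp hpf hpN
    have hrl := fun B y => cts_rl (X := X) (p := p) (p' := r n) hnA hnz B y
    have hPn : P n := by
      rw [hP]
      intro i hno
      apply hpq i
      obtain ⟨B, y, y', hB, h1, h2, h3, h4, h5⟩ := hno
      exact ⟨B, y, y', hB, by rw [← hnA]; exact h1, h2, (hrl B y).1 h3, h4, h5⟩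
    refine ⟨c n (W n), ?_, ?_⟩
    · have h1 : Set.range (c n (W n)) ⊆ W (n + 1) := by
        rw [hWp n hPn]; exact Set.subset_union_right
      exact (h1.trans (hWZ (n + 1))).trans hZN'
    · have h1 := (hrl _ _).1 (hc n (W n) (hWc n))
      exact (hRLB V G X p hp (W n) (hWc n)).2.2.1 _ h1 N
        ((hNW n).trans Set.subset_union_right)

end Pool.Agent.Helper90.MZ
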